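import Mathlib
import Pool.Agent.Lib.MP_d14a53_gt_PW.FinC
import Pool.Agent.Lib.MP_d14a53_gt_PW.Kill

/-!
# MP_d14a53_gt: covers which are abelian over a short polycyclic cover

The definitions `IsSurf` and `PW` are in `Pool/Agent/Lib/MP_d14a53_gt_PW/Defs.lean`.
-/

set_option autoImplicit false

noncomputable section

namespace Pool.Agent.Results.MP_d14a53_gt.AbelianOverShort

open Pool.Agent.MP_d14a53_gt_PW

/-- Let `a i, b i, c j` be standard generators of the fundamental group `G` of a surface of genus `g`
with `p` punctures and `K` a subgroup of finite index. Let `d ≤ g - 2` and let `C 0 = G, C 1, …, C d`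
be subgroups such that `C (l + 1)` contains the kernel of a homomorphism from `C l` to a cyclic group
(`l < d`) and `C d` is normal in `G`. If `K` contains the commutator subgroup of `C d`, then `K` has
the Putman-Wieland property. In other words: this holds for all `K` which contain `[C, C]`, where
`C` is normal in `G` and `G / C` is polycyclic of length at most `g - 2`. -/
theorem result (g p : ℕ) (G : Type) [Group G] (a b : Fin g → G) (c : Fin p → G)
    (hG : IsSurf a b c) (K : Subgroup G) (hK : K.FiniteIndex) (d : ℕ) (hd : d + 2 ≤ g)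
    (C : ℕ → Subgroup G) (hC0 : C 0 = ⊤)
    (hC : ∀ l < d, ∃ (n : ℕ) (χ : C l →* Multiplicative (ZMod n)),
      ∀ x : C l, χ x = 1 → (x : G) ∈ C (l + 1))
    (hn : (C d).Normal) (hK' : ⁅C d, C d⁆ ≤ K) : PW c K := by
  obtain ⟨a', b', hG', hab⟩ := kill_handles hG d C hC0 hC d le_rfl (by omega)
  have hcore : ⁅C d, C d⁆ ≤ K.normalCore :=
    Subgroup.normal_le_normalCore.2 hK'
  have h0 := hab ⟨0, by omega⟩ (by show 0 < g - d; omega)
  have h1 := hab ⟨1, by omega⟩ (by show 1 < g - d; omega)
  refine thmC hG' K hK ⟨0, by omega⟩ ⟨1, by omega⟩ rfl rfl ?_ ?_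
  · exact hcore (Subgroup.commutator_mem_commutator h0.1 h0.2)
  · intro x s t hs ht
    refine hcore (Subgroup.commutator_mem_commutator ?_ ?_)
    · rcases hs with rfl | rfl
      · exact h0.1
      · exact h0.2
    · rcases ht with rfl | rfl
      · exact hn.conj_mem _ h1.1 x
      · exact hn.conj_mem _ h1.2 x

end Pool.Agent.Results.MP_d14a53_gt.AbelianOverShort
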