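import Mathlib
import Pool.Agent.Lib.MP_d14a53_gt_FT.Main2

/-!
# MP_d14a53_gt: one simple closed curve in the normal core of `K`

The definitions `IsSurf`, `Rest`, `PW` are in `Pool/Agent/Lib/MP_d14a53_gt_PW/Defs.lean`, `CutK` is
in `Pool/Agent/Lib/MP_d14a53_gt_FT/Defs.lean`, `HasCurve` in
`Pool/Agent/Lib/MP_d14a53_gt_FT/Defs2.lean`:

* `IsSurf a b c`: `a i, b i, c j` generate the group with the one relation
  `[a 0, b 0] ⋯ [a (g-1), b (g-1)] c 0 ⋯ c (p-1) = 1`;
* `CutK a b c k` is the subgroup generated by `b i, a i b i (a i)⁻¹` (`i < k`), `a i, b i`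
  (`i ≥ k`) and all `c j`, i.e. `π₁` of the surface cut along the disjoint curves
  `b 0, …, b (k-1)`;
* `HasCurve g c M`: for some standard generators `a i, b i, c' j` (`c' j` conjugate to `c j`) and
  some `k < g` the simple closed curve `b k` commutes modulo `M` with every element of
  `CutK a b c' k`;
* `PW c K`: the Putman-Wieland property of `K`, in the form of the frozen statement.
-/

set_option autoImplicit false

noncomputable section

namespace Pool.Agent.Results.MP_d14a53_gt.CurveInCore

open Pool.Agent.MP_d14a53_gt_PW Pool.Agent.MP_d14a53_gt_FT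

/-- Let `G` be the fundamental group of a surface of genus `g` with `p` punctures (peripheral
elements `c j`), `K` a subgroup of finite index and `S` a set of normal subgroups `M` of `G` with
`HasCurve g c M` (e.g. `M` contains a nonseparating simple closed curve, or such a curve is central
modulo `M`, or `M` contains all commutators of a curve `b k` with the fundamental group of the
surface cut along `b 0, …, b (k-1)`), such that the functions on `G ⧸ K` which are invariant under
some `M ∈ S` span all functions on `G ⧸ K` (i.e. every irreducible constituent of the permutation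
representation on `G ⧸ K` is trivial on some `M ∈ S`). Then `K` has the Putman-Wieland property.

For `S = {K.normalCore}` the last condition always holds: it is enough that one nonseparating
simple closed curve lies in the normal core of `K` (or is central modulo the normal core). -/
theorem result (g p : ℕ) (G : Type) [Group G] (c : Fin p → G) (K : Subgroup G)
    (S : Set (Subgroup G)) (hK : K.FiniteIndex) (hS : ∀ M ∈ S, M.Normal ∧ HasCurve g c M)
    (hspan : Submodule.span ℝ
      {w : G ⧸ K → ℝ | ∃ M ∈ S, ∀ m ∈ M, ∀ q : G ⧸ K, w (m • q) = w q} = ⊤) :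
    PW c K :=
  main2 g c K hK S hS hspan

/-- the special case `S = {K.normalCore}`: a nonseparating simple closed curve in the core -/
theorem curve_in_core {g p : ℕ} {G : Type} [Group G] (a b : Fin g → G) (c : Fin p → G)
    (K : Subgroup G) (k : Fin g) (hs : IsSurf a b c) (hK : K.FiniteIndex)
    (hb : b k ∈ K.normalCore) : PW c K := by
  refine result g p G c K {K.normalCore} hK ?_ ?_
  · rintro M rfl
    refine ⟨inferInstance, a, b, c, k, hs, fun j => ⟨1, by group⟩, fun s _ => ?_⟩
    have h1 : s * (b k)⁻¹ * s⁻¹ ∈ K.normalCore :=
      (inferInstance : K.normalCore.Normal).conj_mem _ (K.normalCore.inv_mem hb) s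
    have h2 : b k * s * (b k)⁻¹ * s⁻¹ = b k * (s * (b k)⁻¹ * s⁻¹) := by group
    rw [h2]
    exact K.normalCore.mul_mem hb h1
  · rw [eq_top_iff]
    intro w _
    refine Submodule.subset_span ⟨K.normalCore, rfl, fun m hm q => ?_⟩
    induction q using QuotientGroup.induction_on with
    | H x =>
      congr 1
      show ((m * x : G) : G ⧸ K) = (x : G ⧸ K)
      rw [eq_comm, QuotientGroup.eq]
      have h3 : x⁻¹ * (m * x) = x⁻¹ * m * (x⁻¹)⁻¹ := by group
      rw [h3]
      exact K.normalCore_le ((inferInstance : K.normalCore.Normal).conj_mem _ hm _)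

end Pool.Agent.Results.MP_d14a53_gt.CurveInCore
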