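import Mathlib
import Pool.Agent.Lib.MP_d14a53_gt_PW.FinS2

/-!
# MP_d14a53_gt: one separating curve in the normal core of `K`

The definitions `IsSurf`, `HP`, `Rest`, `Blk`, `Punc`, `PW` are in
`Pool/Agent/Lib/MP_d14a53_gt_PW/Defs.lean`.
-/

set_option autoImplicit false

noncomputable section

namespace Pool.Agent.Results.MP_d14a53_gt.OneCurve

open Pool.Agent.MP_d14a53_gt_PW

/-- Let `a i, b i, c j` be standard generators of the fundamental group `G` of a surface of genus `g`
with `p` punctures and `K` a subgroup of finite index whose normal core contains the separating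
simple closed curve `[a 0, b 0] ⋯ [a (n-1), b (n-1)]`. Suppose that the group `Rest n` of one side
acts transitively on `G / K` and that every ordered pair of distinct points of `G / K` which lie in
one orbit of the group `Blk n` of the other side is `(x, r ζ(t) r⁻¹ x)` for some `r` in `Rest n`,
some standard generator `t` of `Rest n` and some automorphism `ζ` of `G` which maps each `c j` to a
conjugate, is the identity on `Blk n` and maps `Rest n` into itself (for example `Rest n` acts
2-transitively on `G / K`). Then `K` has the Putman-Wieland property. -/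
theorem result (g p : ℕ) (G : Type) [Group G] (a b : Fin g → G) (c : Fin p → G)
    (hG : IsSurf a b c) (K : Subgroup G) (hK : K.FiniteIndex)
    (n : ℕ) (hn : 1 ≤ n) (hng : n ≤ g) (h1 : HP a b n ∈ K.normalCore)
    (htr : ∀ x : G, ∃ r ∈ Rest a b c n, r⁻¹ * x ∈ K)
    (hP : ∀ x y : G ⧸ K, x ≠ y → (∃ s ∈ Blk a b n, s • x = y) →
      ∃ r ∈ Rest a b c n, ∃ ζ : G ≃* G, Punc c ζ ∧ (∀ z ∈ Blk a b n, ζ z = z) ∧
        (∀ z ∈ Rest a b c n, ζ z ∈ Rest a b c n) ∧
        ∃ t : G, ((∃ i : Fin g, n ≤ (i : ℕ) ∧ (t = a i ∨ t = b i)) ∨ ∃ j, t = c j) ∧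
          (r * ζ t * r⁻¹) • x = y) : PW c K :=
  thmS2 hG K hK n hn hng h1 htr hP

end Pool.Agent.Results.MP_d14a53_gt.OneCurve
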