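import Mathlib
import Pool.Agent.Lib.MP_d14a53_gt_PW.FinW2

/-!
# MP_d14a53_gt: two separating curves in the normal core of `K`

The definitions `IsSurf`, `HP`, `Rest`, `PW` are in `Pool/Agent/Lib/MP_d14a53_gt_PW/Defs.lean`.
-/

set_option autoImplicit false

noncomputable section

namespace Pool.Agent.Results.MP_d14a53_gt.TwoCurves

open Pool.Agent.MP_d14a53_gt_PW

/-- Let `a i, b i, c j` and `a' i, b' i, c' j` be standard generators of the fundamental group `G` of
a surface of genus `g` with `p` punctures, `c' j` conjugate to `c j`, and let `K` be a subgroup of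
finite index whose normal core contains the separating simple closed curves
`[a 0, b 0] ⋯ [a (n-1), b (n-1)]` and `[a' 0, b' 0] ⋯ [a' (n'-1), b' (n'-1)]` (disjoint or not).
Let `Rest` and `Rest'` be the groups of the sides of these curves which contain the punctures. If
`Rest ∩ Rest'` acts transitively on `G / K` and `Rest` and `Rest'` generate `G`, then `K` has the
Putman-Wieland property. -/
theorem result (g p : ℕ) (G : Type) [Group G] (a b a' b' : Fin g → G) (c c' : Fin p → G)
    (hG : IsSurf a b c) (hG' : IsSurf a' b' c') (hc : ∀ j, ∃ x : G, c' j = x * c j * x⁻¹)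
    (K : Subgroup G) (hK : K.FiniteIndex)
    (n n' : ℕ) (hn : 1 ≤ n) (hng : n ≤ g) (hn' : 1 ≤ n') (hng' : n' ≤ g)
    (h1 : HP a b n ∈ K.normalCore) (h2 : HP a' b' n' ∈ K.normalCore)
    (htr : ∀ x : G, ∃ r, r ∈ Rest a b c n ∧ r ∈ Rest a' b' c' n' ∧ r⁻¹ * x ∈ K)
    (hgen : Rest a b c n ⊔ Rest a' b' c' n' = ⊤) : PW c K :=
  thmW2 hG hG' hc K hK n n' hn hng hn' hng' h1 h2 htr hgen

end Pool.Agent.Results.MP_d14a53_gt.TwoCurves
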